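import Mathlib
import Pool.Agent.D0H30.QT.Stm

/-!
# Project QT, module SUM: sums over primes
-/

set_option autoImplicit false

namespace Pool.Agent.D0H25.QT

open Finset Pool.Agent.D0H30.QT

/-- Mertens' theorem with the constant `C` -/
def Mert (C : ℝ) : Prop := ∀ s : ℝ, 0 ≤ s →
  |∑ p ∈ (Icc 1 ⌊(2 : ℝ) ^ s⌋₊).filter Nat.Prime, (1 : ℝ) / p - Real.log (s + 1)| ≤ C ∧
  |∑ p ∈ (Icc 1 ⌊(2 : ℝ) ^ s⌋₊).filter (fun p => p.Prime ∧ p % 4 = 1), (1 : ℝ) / p -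
    1 / 2 * Real.log (s + 1)| ≤ C

theorem mem_PS (b : ℝ) (p : ℕ) :
    p ∈ (Icc 1 ⌊(2 : ℝ) ^ b⌋₊).filter Nat.Prime ↔ p.Prime ∧ (p : ℝ) ≤ 2 ^ b := by
  rw [mem_filter, mem_Icc, Nat.le_floor_iff (by positivity)]
  constructor
  · rintro ⟨⟨_, h⟩, hp⟩
    exact ⟨hp, h⟩
  · rintro ⟨hp, h⟩
    exact ⟨⟨hp.one_le, h⟩, hp⟩

theorem wfull {x1 x3 : ℝ} (b : ℝ) :
    ∑ p ∈ (Icc 1 ⌊(2 : ℝ) ^ b⌋₊).filter Nat.Prime, (if p % 4 = 1 then x1 else x3) / (p : ℝ) =
      x3 * ∑ p ∈ (Icc 1 ⌊(2 : ℝ) ^ b⌋₊).filter Nat.Prime, (1 : ℝ) / p - (x3 - x1) *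
      ∑ p ∈ (Icc 1 ⌊(2 : ℝ) ^ b⌋₊).filter (fun p => p.Prime ∧ p % 4 = 1), (1 : ℝ) / p := by
  rw [← filter_filter, sum_filter (s := (Icc 1 ⌊(2 : ℝ) ^ b⌋₊).filter Nat.Prime), mul_sum, mul_sum,
    ← sum_sub_distrib]
  refine sum_congr rfl fun p _ => ?_
  split_ifs
  · ring
  · ring

theorem wsum {C : ℝ} (hC : 0 ≤ C) (hM : Mert C) {a b x1 x3 : ℝ} (ha : 0 ≤ a) (hab : a ≤ b)
    (h1 : 0 ≤ x1) (h13 : x1 ≤ x3) (T : Finset ℕ)
    (hT : ∀ p ∈ T, p.Prime ∧ (2 : ℝ) ^ a < p ∧ (p : ℝ) ≤ 2 ^ b) :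
    ∑ p ∈ T, (if p % 4 = 1 then x1 else x3) / (p : ℝ) ≤
      (x1 + x3) / 2 * (Real.log (b + 1) - Real.log (a + 1)) + 4 * x3 * C := by
  set Pa := (Icc 1 ⌊(2 : ℝ) ^ a⌋₊).filter Nat.Prime with hPa
  set Pb := (Icc 1 ⌊(2 : ℝ) ^ b⌋₊).filter Nat.Prime with hPb
  have hsub : Pa ⊆ Pb := by
    intro p hp
    rw [hPa, mem_PS] at hp
    rw [hPb, mem_PS]
    exact ⟨hp.1, hp.2.trans (Real.rpow_le_rpow_of_exponent_le (by norm_num) hab)⟩
  have hTs : T ⊆ Pb \ Pa := by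
    intro p hp
    obtain ⟨hpp, h2, h3⟩ := hT p hp
    rw [mem_sdiff, hPa, hPb, mem_PS, mem_PS]
    exact ⟨⟨hpp, h3⟩, fun h => absurd h.2 (not_le.2 h2)⟩
  have hnn : ∀ p : ℕ, 0 ≤ (if p % 4 = 1 then x1 else x3) / (p : ℝ) := by
    intro p
    split_ifs
    · positivity
    · exact div_nonneg (h1.trans h13) (by positivity)
  have e1 : ∑ p ∈ T, (if p % 4 = 1 then x1 else x3) / (p : ℝ) ≤
      ∑ p ∈ Pb \ Pa, (if p % 4 = 1 then x1 else x3) / (p : ℝ) :=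
    sum_le_sum_of_subset_of_nonneg hTs fun p _ _ => hnn p
  have e2 := sum_sdiff (f := fun p : ℕ => (if p % 4 = 1 then x1 else x3) / (p : ℝ)) hsub
  rw [wfull, wfull] at e2
  obtain ⟨a1, a2⟩ := hM a ha
  obtain ⟨b1, b2⟩ := hM b (ha.trans hab)
  rw [← hPa] at a1
  rw [← hPb] at b1
  rw [abs_le] at a1 a2 b1 b2
  have h3 : 0 ≤ x3 := h1.trans h13
  have h4 : 0 ≤ x3 - x1 := by linarith
  nlinarith [mul_le_mul_of_nonneg_left a1.1 h3, mul_le_mul_of_nonneg_left b1.2 h3,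
    mul_le_mul_of_nonneg_left a2.2 h4, mul_le_mul_of_nonneg_left b2.1 h4, mul_nonneg h1 hC]

theorem log_pow_le (s : ℕ) : Real.log ((s : ℝ) ^ (63 / 64 : ℝ) + 1) ≤ Real.log (s + 1) := by
  apply Real.log_le_log (by positivity)
  rcases Nat.eq_zero_or_pos s with h | h
  · subst h
    rw [Nat.cast_zero, Real.zero_rpow (by norm_num)]
  · have : (s : ℝ) ^ (63 / 64 : ℝ) ≤ (s : ℝ) ^ (1 : ℝ) :=
      Real.rpow_le_rpow_of_exponent_le (by exact_mod_cast h) (by norm_num)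
    rw [Real.rpow_one] at this
    linarith

theorem pow_le_self' (s : ℕ) : (s : ℝ) ^ (63 / 64 : ℝ) ≤ s := by
  rcases Nat.eq_zero_or_pos s with h | h
  · subst h
    rw [Nat.cast_zero, Real.zero_rpow (by norm_num)]
  · have : (s : ℝ) ^ (63 / 64 : ℝ) ≤ (s : ℝ) ^ (1 : ℝ) :=
      Real.rpow_le_rpow_of_exponent_le (by exact_mod_cast h) (by norm_num)
    rwa [Real.rpow_one] at this

theorem log_crude (s : ℕ) : Real.log (s + 1 + 1) - Real.log ((s : ℝ) ^ (63 / 64 : ℝ) + 1) ≤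
    1 / 64 * Real.log (s + 1) + Real.log 2 := by
  have h0 : (0 : ℝ) ≤ s := Nat.cast_nonneg s
  have h1 : Real.log (s + 1 + 1) ≤ Real.log 2 + Real.log (s + 1) := by
    rw [← Real.log_mul (by norm_num) (by positivity)]
    exact Real.log_le_log (by positivity) (by linarith)
  have h2 : 63 / 64 * Real.log (s + 1) ≤ Real.log ((s : ℝ) ^ (63 / 64 : ℝ) + 1) := by
    rw [← Real.log_rpow (by positivity)]
    apply Real.log_le_log (by positivity)
    have := Real.rpow_add_le_add_rpow h0 (by norm_num : (0 : ℝ) ≤ 1)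
      (by norm_num : (0 : ℝ) ≤ 63 / 64) (by norm_num)
    rwa [Real.one_rpow] at this
  linarith

/-- the primes below `2 ^ (s + 1)` -/
theorem jsum {C : ℝ} (hC : 0 ≤ C) (hM : Mert C) {x1 x3 : ℝ} (s : ℕ) (h1 : 0 ≤ x1)
    (h13 : x1 ≤ x3) : by
    classical exact ∑ p ∈ OP (s + 1), (if Sm s p then (if p % 4 = 1 then x1 else x3) else 1) / (p : ℝ) ≤
      (x1 + x3) / 2 * Real.log (s + 1) + 1 / 64 * Real.log (s + 1) +
        (4 * x3 * C + 4 * C + Real.log 2) := by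
  classical
  have hs0 : (0 : ℝ) ≤ (s : ℝ) ^ (63 / 64 : ℝ) := by positivity
  rw [← sum_filter_add_sum_filter_not (OP (s + 1)) (Sm s)]
  have e1 : ∑ p ∈ (OP (s + 1)).filter (Sm s),
      (if Sm s p then (if p % 4 = 1 then x1 else x3) else 1) / (p : ℝ) ≤
      (x1 + x3) / 2 * (Real.log ((s : ℝ) ^ (63 / 64 : ℝ) + 1) - Real.log (0 + 1)) + 4 * x3 * C := by
    refine le_trans (le_of_eq ?_) (wsum hC hM le_rfl hs0 h1 h13 ((OP (s + 1)).filter (Sm s)) ?_)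
    · refine sum_congr rfl fun p hp => ?_
      rw [if_pos (mem_filter.1 hp).2]
    · intro p hp
      rw [mem_filter, OP, mem_filter] at hp
      refine ⟨hp.1.2.1, ?_, hp.2⟩
      rw [Real.rpow_zero]
      exact_mod_cast hp.1.2.1.one_lt
  have e2 : ∑ p ∈ (OP (s + 1)).filter (fun p => ¬ Sm s p),
      (if Sm s p then (if p % 4 = 1 then x1 else x3) else 1) / (p : ℝ) ≤
      (1 + 1) / 2 * (Real.log ((s : ℝ) + 1 + 1) - Real.log ((s : ℝ) ^ (63 / 64 : ℝ) + 1)) +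
        4 * 1 * C := by
    refine le_trans (le_of_eq ?_) (wsum hC hM hs0 (b := (s : ℝ) + 1) (x1 := 1) (x3 := 1) ?_
      zero_le_one le_rfl ((OP (s + 1)).filter (fun p => ¬ Sm s p)) ?_)
    · refine sum_congr rfl fun p hp => ?_
      rw [if_neg (mem_filter.1 hp).2, ite_self]
    · linarith [pow_le_self' s]
    · intro p hp
      rw [mem_filter, OP, mem_filter, mem_range] at hp
      refine ⟨hp.1.2.1, not_le.1 hp.2, ?_⟩
      have : (p : ℝ) < 2 ^ (s + 1) := by exact_mod_cast hp.1.1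
      have h2 : (2 : ℝ) ^ ((s : ℝ) + 1) = 2 ^ (s + 1) := by
        rw [← Real.rpow_natCast]
        push_cast
        rfl
      rw [h2]
      exact this.le
  have e3 := log_pow_le s
  have e4 := log_crude s
  rw [zero_add, Real.log_one] at e1
  nlinarith [mul_le_mul_of_nonneg_left e3 (by linarith : 0 ≤ (x1 + x3) / 2)]

/-- the primes between `2 ^ (j + 1)` and `2 ^ (k + 1)` -/
theorem ksum {C : ℝ} (hC : 0 ≤ C) (hM : Mert C) {x1 x3 : ℝ} {j k : ℕ} (hjk : j ≤ k) (h1 : 0 ≤ x1)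
    (h13 : x1 ≤ x3) : by
    classical exact ∑ p ∈ (OP (k + 1)).filter (fun p => 2 ^ (j + 1) ≤ p),
      (if Sm k p then (if p % 4 = 1 then x1 else x3) else 1) / (p : ℝ) ≤
      (x1 + x3) / 2 * (Real.log (k + 1) - Real.log (j + 1)) + 1 / 64 * Real.log (k + 1) +
        (4 * x3 * C + 4 * C + Real.log 2) := by
  classical
  have hs0 : (0 : ℝ) ≤ (k : ℝ) ^ (63 / 64 : ℝ) := by positivity
  have hj0 : (0 : ℝ) ≤ (j : ℝ) := by positivity
  have hjk' : (j : ℝ) ≤ k := by exact_mod_cast hjk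
  have hx3 : 0 ≤ x3 := h1.trans h13
  rw [← sum_filter_add_sum_filter_not ((OP (k + 1)).filter (fun p => 2 ^ (j + 1) ≤ p)) (Sm k)]
  have hlow : ∀ p ∈ (OP (k + 1)).filter (fun p => 2 ^ (j + 1) ≤ p),
      (2 : ℝ) ^ ((j : ℝ) + 1) < p := by
    intro p hp
    rw [mem_filter, OP, mem_filter, mem_range] at hp
    have h2 : (2 : ℝ) ^ ((j : ℝ) + 1) = 2 ^ (j + 1) := by
      rw [← Real.rpow_natCast]
      push_cast
      rfl
    rw [h2]
    have h3 : 2 ^ (j + 1) ≠ p := by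
      intro h
      have h4 : 2 ∣ p := by
        rw [← h]
        exact dvd_pow_self 2 (Nat.succ_ne_zero j)
      exact hp.1.2.2 ((Nat.prime_dvd_prime_iff_eq Nat.prime_two hp.1.2.1).1 h4).symm
    have h5 : 2 ^ (j + 1) < p := lt_of_le_of_ne hp.2 h3
    exact_mod_cast h5
  have hup : ∀ p ∈ (OP (k + 1)).filter (fun p => 2 ^ (j + 1) ≤ p),
      p.Prime ∧ (p : ℝ) ≤ (2 : ℝ) ^ ((k : ℝ) + 1) := by
    intro p hp
    rw [mem_filter, OP, mem_filter, mem_range] at hp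
    have h2 : (2 : ℝ) ^ ((k : ℝ) + 1) = 2 ^ (k + 1) := by
      rw [← Real.rpow_natCast]
      push_cast
      rfl
    rw [h2]
    have : (p : ℝ) < 2 ^ (k + 1) := by exact_mod_cast hp.1.1
    exact ⟨hp.1.2.1, this.le⟩
  have e1 : ∑ p ∈ ((OP (k + 1)).filter (fun p => 2 ^ (j + 1) ≤ p)).filter (Sm k),
      (if Sm k p then (if p % 4 = 1 then x1 else x3) else 1) / (p : ℝ) ≤
      (x1 + x3) / 2 * (Real.log (k + 1) - Real.log (j + 1)) + 4 * x3 * C := by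
    have hL : 0 ≤ (x1 + x3) / 2 * (Real.log (k + 1) - Real.log (j + 1)) := by
      apply mul_nonneg (by linarith)
      have := Real.log_le_log (by positivity : (0 : ℝ) < j + 1) (by linarith : (j : ℝ) + 1 ≤ k + 1)
      linarith
    rcases le_or_gt ((j : ℝ) + 1) ((k : ℝ) ^ (63 / 64 : ℝ)) with hc | hc
    · refine le_trans (le_trans (le_of_eq ?_) (wsum hC hM (by positivity) hc h1 h13
        (((OP (k + 1)).filter (fun p => 2 ^ (j + 1) ≤ p)).filter (Sm k)) ?_)) ?_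
      · refine sum_congr rfl fun p hp => ?_
        rw [if_pos (mem_filter.1 hp).2]
      · intro p hp
        rw [mem_filter] at hp
        exact ⟨(hup p hp.1).1, hlow p hp.1, hp.2⟩
      · have e3 := log_pow_le k
        have e4 := Real.log_le_log (by positivity : (0 : ℝ) < j + 1)
          (by linarith : (j : ℝ) + 1 ≤ j + 1 + 1)
        nlinarith [mul_le_mul_of_nonneg_left e3 (by linarith : 0 ≤ (x1 + x3) / 2),
          mul_le_mul_of_nonneg_left e4 (by linarith : 0 ≤ (x1 + x3) / 2)]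
    · have : ((OP (k + 1)).filter (fun p => 2 ^ (j + 1) ≤ p)).filter (Sm k) = ∅ := by
        rw [filter_eq_empty_iff]
        intro p hp hs
        have h3 := hlow p hp
        rw [Sm] at hs
        have h4 := Real.rpow_le_rpow_of_exponent_le (by norm_num : (1 : ℝ) ≤ 2) hc.le
        linarith
      rw [this, sum_empty]
      positivity
  have e2 : ∑ p ∈ ((OP (k + 1)).filter (fun p => 2 ^ (j + 1) ≤ p)).filter (fun p => ¬ Sm k p),
      (if Sm k p then (if p % 4 = 1 then x1 else x3) else 1) / (p : ℝ) ≤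
      (1 + 1) / 2 * (Real.log ((k : ℝ) + 1 + 1) - Real.log ((k : ℝ) ^ (63 / 64 : ℝ) + 1)) +
        4 * 1 * C := by
    refine le_trans (le_of_eq ?_) (wsum hC hM hs0 (b := (k : ℝ) + 1) (x1 := 1) (x3 := 1) ?_
      zero_le_one le_rfl (((OP (k + 1)).filter (fun p => 2 ^ (j + 1) ≤ p)).filter
        (fun p => ¬ Sm k p)) ?_)
    · refine sum_congr rfl fun p hp => ?_
      rw [if_neg (mem_filter.1 hp).2, ite_self]
    · linarith [pow_le_self' k]
    · intro p hp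
      rw [mem_filter] at hp
      exact ⟨(hup p hp.1).1, not_le.1 hp.2, (hup p hp.1).2⟩
  have e4 := log_crude k
  linarith

end Pool.Agent.D0H25.QT
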