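import Mathlib
import Pool.Agent.D0H30.QT.Stm
import Pool.Agent.D0H25.QT.Est

/-!
# Project QT, module SUM: the sum over the systems of sets of primes
-/

set_option autoImplicit false

namespace Pool.Agent.D0H25.QT

open Finset Pool.Agent.D0H30.QT

/-- the factor of Rankin's trick -/
noncomputable def tau (s : ℕ) : ℝ := (2 : ℝ) ^ (-((s : ℝ) ^ (1 / 64 : ℝ) / 8))

theorem tau_pos (s : ℕ) : 0 < tau s := Real.rpow_pos_of_pos (by norm_num) _

theorem tau_bound : ∃ K : ℝ, 1 ≤ K ∧ ∀ s : ℕ, tau s * Real.exp (8 * Real.log (s + 1)) ≤ K := by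
  refine ⟨max 1 (2 ^ 8 * (Nat.factorial 512 * (8 / Real.log 2) ^ 512)), le_max_left _ _,
    fun s => ?_⟩
  have hl : 0 < Real.log 2 := Real.log_pos (by norm_num)
  have h8 : Real.exp (8 * Real.log (s + 1)) = ((s : ℝ) + 1) ^ 8 := by
    rw [show (8 : ℝ) * Real.log (s + 1) = ((8 : ℕ) : ℝ) * Real.log (s + 1) by norm_num,
      Real.exp_nat_mul, Real.exp_log (by positivity)]
  rw [h8]
  rcases Nat.eq_zero_or_pos s with h | h
  · subst h
    refine le_trans (le_of_eq ?_) (le_max_left _ _)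
    rw [tau, Nat.cast_zero, Real.zero_rpow (by norm_num)]
    norm_num
  · refine le_trans ?_ (le_max_right _ _)
    have hs : (1 : ℝ) ≤ s := by exact_mod_cast h
    set y : ℝ := (s : ℝ) ^ (1 / 64 : ℝ) with hy
    have hy0 : 0 < y := by positivity
    have hys : y ^ 512 = (s : ℝ) ^ 8 := by
      rw [hy, ← Real.rpow_natCast, ← Real.rpow_mul (by positivity), ← Real.rpow_natCast]
      norm_num
    have h1 : ((s : ℝ) + 1) ^ 8 ≤ 2 ^ 8 * y ^ 512 := by
      rw [hys, ← mul_pow]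
      exact pow_le_pow_left₀ (by positivity) (by linarith) 8
    have h2 : (y * Real.log 2 / 8) ^ 512 / (Nat.factorial 512 : ℝ) ≤
        Real.exp (y * Real.log 2 / 8) := Real.pow_div_factorial_le_exp _ (by positivity) 512
    have h3 : tau s = Real.exp (-(y * Real.log 2 / 8)) := by
      rw [tau, Real.rpow_def_of_pos (by norm_num), ← hy]
      congr 1
      ring
    have hf : (0 : ℝ) < (Nat.factorial 512 : ℝ) := by exact_mod_cast Nat.factorial_pos 512
    have h4 : y ^ 512 ≤ Nat.factorial 512 * (8 / Real.log 2) ^ 512 *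
        Real.exp (y * Real.log 2 / 8) := by
      have h5 : y ^ 512 = (y * Real.log 2 / 8) ^ 512 * (8 / Real.log 2) ^ 512 := by
        rw [← mul_pow]
        congr 1
        field_simp
      rw [div_le_iff₀ hf] at h2
      calc y ^ 512 = (y * Real.log 2 / 8) ^ 512 * (8 / Real.log 2) ^ 512 := h5
        _ ≤ (Real.exp (y * Real.log 2 / 8) * (Nat.factorial 512 : ℝ)) *
            (8 / Real.log 2) ^ 512 := mul_le_mul_of_nonneg_right h2 (by positivity)
        _ = _ := by ring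
    have h6 : Real.exp (-(y * Real.log 2 / 8)) * Real.exp (y * Real.log 2 / 8) = 1 := by
      rw [← Real.exp_add, neg_add_cancel, Real.exp_zero]
    rw [h3]
    calc Real.exp (-(y * Real.log 2 / 8)) * ((s : ℝ) + 1) ^ 8
        ≤ Real.exp (-(y * Real.log 2 / 8)) * (2 ^ 8 * (Nat.factorial 512 *
          (8 / Real.log 2) ^ 512 * Real.exp (y * Real.log 2 / 8))) :=
          mul_le_mul_of_nonneg_left (h1.trans (mul_le_mul_of_nonneg_left h4 (by positivity)))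
            (Real.exp_pos _).le
      _ = 2 ^ 8 * (Nat.factorial 512 * (8 / Real.log 2) ^ 512) *
          (Real.exp (-(y * Real.log 2 / 8)) * Real.exp (y * Real.log 2 / 8)) := by ring
      _ = _ := by rw [h6, mul_one]

theorem rankin (s : ℕ) (A : Finset ℕ) (hA : ∀ p ∈ A, Sm s p) (g : ℕ → ℝ)
    (hg : ∀ p, 0 ≤ g p) :
    ∏ p ∈ (if pr A ^ 8 ≤ 2 ^ s then A else ∅), g p ≤
      ∏ p ∈ A, g p + tau s * ∏ _p ∈ A, (2 : ℝ) := by
  split_ifs with h
  · have := mul_nonneg (tau_pos s).le (prod_nonneg fun p (_ : p ∈ A) => (zero_le_two : (0 : ℝ) ≤ 2))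
    linarith
  · rw [prod_empty]
    have h0 : 0 ≤ ∏ p ∈ A, g p := prod_nonneg fun p _ => hg p
    have h1 : 1 ≤ tau s * ∏ _p ∈ A, (2 : ℝ) := by
      rw [prod_const, tau, ← Real.rpow_natCast, ← Real.rpow_add (by norm_num)]
      apply Real.one_le_rpow (by norm_num)
      rcases Nat.eq_zero_or_pos s with h2 | h2
      · subst h2
        rw [Nat.cast_zero, Real.zero_rpow (by norm_num)]
        simp
      · have hs : (1 : ℝ) ≤ s := by exact_mod_cast h2
        have h3 : (pr A : ℝ) ≤ ((2 : ℝ) ^ ((s : ℝ) ^ (63 / 64 : ℝ))) ^ A.card := by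
          rw [pr, Nat.cast_prod, ← prod_const]
          exact prod_le_prod (fun p _ => Nat.cast_nonneg p) fun p hp => hA p hp
        have h4 : (2 : ℝ) ^ s < (pr A : ℝ) ^ 8 := by exact_mod_cast not_le.1 h
        have h5 : (2 : ℝ) ^ s < (((2 : ℝ) ^ ((s : ℝ) ^ (63 / 64 : ℝ))) ^ A.card) ^ 8 :=
          h4.trans_le (pow_le_pow_left₀ (by positivity) h3 8)
        rw [← pow_mul, ← Real.rpow_natCast, ← Real.rpow_natCast, ← Real.rpow_mul (by norm_num),
          Real.rpow_lt_rpow_left_iff (by norm_num)] at h5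
        have h6 : (s : ℝ) = (s : ℝ) ^ (63 / 64 : ℝ) * (s : ℝ) ^ (1 / 64 : ℝ) := by
          rw [← Real.rpow_add (by positivity)]
          norm_num
        have h7 : (0 : ℝ) < (s : ℝ) ^ (63 / 64 : ℝ) := by positivity
        push_cast at h5
        have h8 : (s : ℝ) ^ (1 / 64 : ℝ) < (A.card : ℝ) * 8 := by
          have h9 : (s : ℝ) ^ (63 / 64 : ℝ) * (s : ℝ) ^ (1 / 64 : ℝ) <
              (s : ℝ) ^ (63 / 64 : ℝ) * ((A.card : ℝ) * 8) := by
            rw [← h6]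
            exact h5
          exact lt_of_mul_lt_mul_left h9 h7.le
        linarith
    linarith

/-- `OP` is monotone -/
theorem OP_mono {a b : ℕ} (h : a ≤ b) : OP a ⊆ OP b := by
  intro p hp
  rw [OP, mem_filter, mem_range] at hp ⊢
  exact ⟨hp.1.trans_le (Nat.pow_le_pow_right (by norm_num) h), hp.2⟩

theorem not_sm {j p : ℕ} (h : 2 ^ (j + 1) ≤ p) : ¬ Sm j p := by
  intro hs
  rw [Sm] at hs
  have h1 : (2 : ℝ) ^ ((j : ℝ) ^ (63 / 64 : ℝ)) ≤ 2 ^ (j : ℝ) :=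
    Real.rpow_le_rpow_of_exponent_le (by norm_num) (pow_le_self' j)
  rw [Real.rpow_natCast] at h1
  have h2 : (2 : ℝ) ^ (j + 1) ≤ p := by exact_mod_cast h
  have h3 : (2 : ℝ) ^ j < 2 ^ (j + 1) := pow_lt_pow_right₀ (by norm_num) (Nat.lt_succ_self j)
  linarith

open Classical in
/-- the local factor of the index `i` -/
noncomputable def hh (j k : ℕ) (U V : ℕ → ℝ) (i : Fin 4) (p : ℕ) : ℝ :=
  (if Sm j p then U p else 1) * (if i ≤ 1 ∧ (2 ^ (j + 1) ≤ p ∧ Sm k p) then V p else 1) / p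

open Classical in
theorem gen {j k : ℕ} (hjk : j ≤ k) (U V : ℕ → ℝ) (hU : ∀ p, 0 ≤ U p) (hV : ∀ p, 0 ≤ V p) :
    ∑ S ∈ Sys k j, (∏ p ∈ (S 0 ∪ S 1 ∪ S 2 ∪ S 3).filter (Sm j), U p) *
      (∏ p ∈ (S 0 ∪ S 1).filter (fun p => 2 ^ (j + 1) ≤ p ∧ Sm k p), V p) /
      ∏ i, (pr (S i) : ℝ) ≤
    Real.exp (4 * ∑ p ∈ OP (j + 1), (if Sm j p then U p else 1) / (p : ℝ) +
      2 * ∑ p ∈ (OP (k + 1)).filter (fun p => 2 ^ (j + 1) ≤ p),
        (if Sm k p then V p else 1) / (p : ℝ)) := by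
  have hh0 : ∀ i p, 0 ≤ hh j k U V i p := by
    intro i p
    rw [hh]
    apply div_nonneg _ (Nat.cast_nonneg p)
    apply mul_nonneg
    · split_ifs
      · exact hU p
      · exact zero_le_one
    · split_ifs
      · exact hV p
      · exact zero_le_one
  have e1 : ∀ S ∈ Sys k j, (∏ p ∈ (S 0 ∪ S 1 ∪ S 2 ∪ S 3).filter (Sm j), U p) *
      (∏ p ∈ (S 0 ∪ S 1).filter (fun p => 2 ^ (j + 1) ≤ p ∧ Sm k p), V p) /
      ∏ i, (pr (S i) : ℝ) = ∏ i, ∏ p ∈ S i, hh j k U V i p := by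
    intro S hS
    rw [Sys, mem_filter] at hS
    have d := hS.2
    rw [prod_filter, prod_filter, prod_union, prod_union, prod_union, prod_union,
      Fin.prod_univ_four, Fin.prod_univ_four]
    · simp only [hh, pr, Nat.cast_prod, prod_div_distrib, prod_mul_distrib]
      have i0 : (0 : Fin 4) ≤ 1 := by decide
      have i1 : (1 : Fin 4) ≤ 1 := by decide
      have i2 : ¬ (2 : Fin 4) ≤ 1 := by decide
      have i3 : ¬ (3 : Fin 4) ≤ 1 := by decide
      simp only [i0, i1, i2, i3, true_and, false_and, if_false, prod_const_one, mul_one]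
      simp only [div_eq_mul_inv, mul_inv]
      ring
    · exact d 0 1 (by decide)
    · exact d 0 1 (by decide)
    · exact disjoint_union_left.2 ⟨d 0 2 (by decide), d 1 2 (by decide)⟩
    · exact disjoint_union_left.2 ⟨disjoint_union_left.2 ⟨d 0 3 (by decide), d 1 3 (by decide)⟩,
        d 2 3 (by decide)⟩
  rw [sum_congr rfl e1]
  have e2 : ∑ S ∈ Sys k j, ∏ i, ∏ p ∈ S i, hh j k U V i p ≤
      ∑ S ∈ Fintype.piFinset (fun i => (rg k j i).powerset), ∏ i, ∏ p ∈ S i, hh j k U V i p :=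
    sum_le_sum_of_subset_of_nonneg (filter_subset _ _) fun S _ _ =>
      prod_nonneg fun i _ => prod_nonneg fun p _ => hh0 i p
  refine e2.trans ?_
  have e3 := (prod_univ_sum (fun i => (rg k j i).powerset)
    (fun i (T : Finset ℕ) => ∏ p ∈ T, hh j k U V i p))
  rw [← e3]
  have e4 : ∀ i, ∑ T ∈ (rg k j i).powerset, ∏ p ∈ T, hh j k U V i p ≤
      Real.exp (∑ p ∈ rg k j i, hh j k U V i p) := by
    intro i
    rw [← prod_one_add]
    exact Real.prod_one_add_le_exp_sum _ (hh0 i)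
  have e5 : ∏ i, ∑ T ∈ (rg k j i).powerset, ∏ p ∈ T, hh j k U V i p ≤
      ∏ i, Real.exp (∑ p ∈ rg k j i, hh j k U V i p) :=
    prod_le_prod (fun i _ => sum_nonneg fun T _ => prod_nonneg fun p _ => hh0 i p)
      fun i _ => e4 i
  refine e5.trans ?_
  rw [← Real.exp_sum, Real.exp_le_exp, Fin.sum_univ_four]
  have r0 : rg k j 0 = OP k := rfl
  have r1 : rg k j 1 = OP (k + 1) := rfl
  have r2 : rg k j 2 = OP (j + 1) := rfl
  have r3 : rg k j 3 = OP (j + 1) := rfl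
  rw [r0, r1, r2, r3]
  have f01 : ∀ i : Fin 4, i ≤ 1 → ∑ p ∈ OP (k + 1), hh j k U V i p ≤
      ∑ p ∈ OP (j + 1), (if Sm j p then U p else 1) / (p : ℝ) +
      ∑ p ∈ (OP (k + 1)).filter (fun p => 2 ^ (j + 1) ≤ p),
        (if Sm k p then V p else 1) / (p : ℝ) := by
    intro i hi
    rw [← sum_filter_add_sum_filter_not (OP (k + 1)) (fun p => 2 ^ (j + 1) ≤ p), add_comm]
    apply add_le_add
    · have hs : (OP (k + 1)).filter (fun p => ¬ 2 ^ (j + 1) ≤ p) ⊆ OP (j + 1) := by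
        intro p hp
        rw [mem_filter, OP, mem_filter, mem_range] at hp
        rw [OP, mem_filter, mem_range]
        exact ⟨not_le.1 hp.2, hp.1.2⟩
      refine le_trans (le_of_eq ?_) (sum_le_sum_of_subset_of_nonneg hs fun p _ _ => ?_)
      · refine sum_congr rfl fun p hp => ?_
        have hn : ¬ (i ≤ 1 ∧ (2 ^ (j + 1) ≤ p ∧ Sm k p)) := fun h => (mem_filter.1 hp).2 h.2.1
        rw [hh, if_neg hn, mul_one]
      · apply div_nonneg _ (Nat.cast_nonneg p)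
        split_ifs
        · exact hU p
        · exact zero_le_one
    · refine le_of_eq (sum_congr rfl fun p hp => ?_)
      have h2 := (mem_filter.1 hp).2
      rw [hh, if_neg (not_sm h2), one_mul]
      by_cases h3 : Sm k p
      · rw [if_pos ⟨hi, h2, h3⟩, if_pos h3]
      · rw [if_neg (fun h => h3 h.2.2), if_neg h3]
  have f23 : ∀ i : Fin 4, ¬ i ≤ 1 → ∑ p ∈ OP (j + 1), hh j k U V i p =
      ∑ p ∈ OP (j + 1), (if Sm j p then U p else 1) / (p : ℝ) := by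
    intro i hi
    refine sum_congr rfl fun p hp => ?_
    have hn : ¬ (i ≤ 1 ∧ (2 ^ (j + 1) ≤ p ∧ Sm k p)) := fun h => hi h.1
    rw [hh, if_neg hn, mul_one]
  have g0 : ∑ p ∈ OP k, hh j k U V 0 p ≤ ∑ p ∈ OP (k + 1), hh j k U V 0 p :=
    sum_le_sum_of_subset_of_nonneg (OP_mono (Nat.le_succ k)) fun p _ _ => hh0 0 p
  have g1 := f01 0 (by decide)
  have g2 := f01 1 (by decide)
  have g3 := f23 2 (by decide)
  have g4 := f23 3 (by decide)
  rw [g3, g4]
  linarith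

theorem gp_inv (p : ℕ) : (gp p)⁻¹ = if p % 4 = 1 then 1 / 4 else 1 / 2 := by
  rw [gp]
  split_ifs <;> norm_num

theorem gp_inv_sq (p : ℕ) : (gp p)⁻¹ ^ 2 = if p % 4 = 1 then 1 / 16 else 1 / 4 := by
  rw [gp]
  split_ifs <;> norm_num

theorem sum : P_MERT → P_SUM := by
  classical
  rintro ⟨C, hC, hM⟩
  have hM' : Mert C := hM
  obtain ⟨K, hK, hτ⟩ := tau_bound
  have hl2 : 0 < Real.log 2 := Real.log_pos (by norm_num)
  set c : ℝ := 12 * C + Real.log 2 with hc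
  have hc0 : 0 ≤ c := by positivity
  refine ⟨4 * K ^ 2 * Real.exp (6 * c), ?_, fun k j hk hjk => ?_⟩
  · have h1 : 1 ≤ Real.exp (6 * c) := Real.one_le_exp (by positivity)
    have h2 : 1 ≤ K ^ 2 := one_le_pow₀ hK
    nlinarith
  have hk0 : (0 : ℝ) < (k : ℝ) + 1 := by positivity
  have hj0 : (0 : ℝ) < (j : ℝ) + 1 := by positivity
  have hLj : 0 ≤ Real.log (j + 1) := Real.log_nonneg (by linarith [(Nat.cast_nonneg j : (0 : ℝ) ≤ j)])
  have hLk : Real.log (j + 1) ≤ Real.log (k + 1) :=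
    Real.log_le_log hj0 (by linarith [(Nat.cast_le.2 hjk : (j : ℝ) ≤ k)])
  set Lj := Real.log ((j : ℝ) + 1) with hLjd
  set Lk := Real.log ((k : ℝ) + 1) with hLkd
  -- the two choices
  set U0 : ℕ → ℝ := fun p => if p % 4 = 1 then 1 / 16 else 1 / 4 with hU0
  set U1 : ℕ → ℝ := fun p => if p % 4 = 1 then 2 else 2 with hU1
  set V0 : ℕ → ℝ := fun p => if p % 4 = 1 then 1 / 4 else 1 / 2 with hV0
  have pU0 : ∀ p, 0 ≤ U0 p := by intro p; simp only [hU0]; split_ifs <;> norm_num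
  have pU1 : ∀ p, 0 ≤ U1 p := by intro p; simp only [hU1]; split_ifs <;> norm_num
  have pV0 : ∀ p, 0 ≤ V0 p := by intro p; simp only [hV0]; split_ifs <;> norm_num
  -- bounds of the four sums
  have main : ∀ (U V : ℕ → ℝ) (x1 x3 y1 y3 s t : ℝ), (∀ p, U p = if p % 4 = 1 then x1 else x3) →
      (∀ p, V p = if p % 4 = 1 then y1 else y3) → 0 ≤ x1 → x1 ≤ x3 → x3 ≤ 2 → 0 ≤ y1 → y1 ≤ y3 →
      y3 ≤ 2 → 0 ≤ s → 0 ≤ t → s * Real.exp (2 * (x1 + x3) * Lj) ≤ K * Real.exp (5 / 8 * Lj) →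
      t * Real.exp ((y1 + y3) * (Lk - Lj)) ≤ K * Real.exp (3 / 4 * (Lk - Lj)) →
      s * t * ∑ S ∈ Sys k j, (∏ p ∈ (S 0 ∪ S 1 ∪ S 2 ∪ S 3).filter (Sm j), U p) *
      (∏ p ∈ (S 0 ∪ S 1).filter (fun p => 2 ^ (j + 1) ≤ p ∧ Sm k p), V p) /
      ∏ i, (pr (S i) : ℝ) ≤ K ^ 2 * Real.exp (6 * c) * Real.exp (25 / 32 * Lk - 1 / 16 * Lj) := by
    intro U V x1 x3 y1 y3 s t hU hV hx1 hx13 hx3 hy1 hy13 hy3 hs ht h1 h2
    have g := gen hjk U V
      (fun p => by rw [hU]; split_ifs; exact hx1; exact hx1.trans hx13)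
      (fun p => by rw [hV]; split_ifs; exact hy1; exact hy1.trans hy13)
    have a1 := jsum hC hM' j hx1 hx13
    have a2 := ksum hC hM' hjk hy1 hy13
    simp only [hU, hV] at g
    rw [← hLjd] at a1 a2
    rw [← hLkd] at a2
    have b1 : 4 * x3 * C + 4 * C + Real.log 2 ≤ c := by
      rw [hc]
      nlinarith
    have b2 : 4 * y3 * C + 4 * C + Real.log 2 ≤ c := by
      rw [hc]
      nlinarith
    have g2 := g.trans (Real.exp_le_exp.2 (show _ ≤ 2 * (x1 + x3) * Lj + (y1 + y3) * (Lk - Lj) +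
      (1 / 16 * Lj + 1 / 32 * Lk + 6 * c) by linarith))
    simp only [hU, hV]
    refine (mul_le_mul_of_nonneg_left g2 (mul_nonneg hs ht)).trans ?_
    rw [Real.exp_add, Real.exp_add]
    have h3 := mul_le_mul h1 h2 (by positivity) (by positivity)
    calc s * t * (Real.exp (2 * (x1 + x3) * Lj) * Real.exp ((y1 + y3) * (Lk - Lj)) *
          Real.exp (1 / 16 * Lj + 1 / 32 * Lk + 6 * c))
        = s * Real.exp (2 * (x1 + x3) * Lj) * (t * Real.exp ((y1 + y3) * (Lk - Lj))) *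
          Real.exp (1 / 16 * Lj + 1 / 32 * Lk + 6 * c) := by ring
      _ ≤ K * Real.exp (5 / 8 * Lj) * (K * Real.exp (3 / 4 * (Lk - Lj))) *
          Real.exp (1 / 16 * Lj + 1 / 32 * Lk + 6 * c) :=
          mul_le_mul_of_nonneg_right h3 (Real.exp_pos _).le
      _ = K ^ 2 * (Real.exp (5 / 8 * Lj) * Real.exp (3 / 4 * (Lk - Lj)) *
          Real.exp (1 / 16 * Lj + 1 / 32 * Lk + 6 * c)) := by ring
      _ = K ^ 2 * (Real.exp (6 * c) * Real.exp (25 / 32 * Lk - 1 / 16 * Lj)) := by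
          rw [← Real.exp_add, ← Real.exp_add, ← Real.exp_add]
          congr 2
          ring
      _ = _ := by ring
  have hK0 : 0 ≤ K := by linarith
  have c1 : (1 : ℝ) * Real.exp (2 * (1 / 16 + 1 / 4) * Lj) ≤ K * Real.exp (5 / 8 * Lj) := by
    rw [show 2 * (1 / 16 + 1 / 4) * Lj = 5 / 8 * Lj by ring]
    exact mul_le_mul_of_nonneg_right hK (Real.exp_pos _).le
  have c2 : tau j * Real.exp (2 * (2 + 2) * Lj) ≤ K * Real.exp (5 / 8 * Lj) := by
    rw [show 2 * (2 + 2) * Lj = 8 * Lj by ring]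
    refine (hτ j).trans ?_
    exact le_mul_of_one_le_right hK0 (Real.one_le_exp (by positivity))
  have c3 : (1 : ℝ) * Real.exp ((1 / 4 + 1 / 2) * (Lk - Lj)) ≤
      K * Real.exp (3 / 4 * (Lk - Lj)) := by
    rw [show (1 / 4 + 1 / 2) * (Lk - Lj) = 3 / 4 * (Lk - Lj) by ring]
    exact mul_le_mul_of_nonneg_right hK (Real.exp_pos _).le
  have c4 : tau k * Real.exp ((2 + 2) * (Lk - Lj)) ≤ K * Real.exp (3 / 4 * (Lk - Lj)) := by
    have h1 : tau k * Real.exp ((2 + 2) * (Lk - Lj)) ≤ tau k * Real.exp (8 * Lk) :=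
      mul_le_mul_of_nonneg_left (Real.exp_le_exp.2 (by nlinarith)) (tau_pos k).le
    refine h1.trans ((hτ k).trans ?_)
    exact le_mul_of_one_le_right hK0 (Real.one_le_exp (by nlinarith))
  have m1 := main U0 V0 (1 / 16) (1 / 4) (1 / 4) (1 / 2) 1 1 (fun p => rfl) (fun p => rfl)
    (by norm_num) (by norm_num) (by norm_num) (by norm_num) (by norm_num) (by norm_num)
    zero_le_one zero_le_one c1 c3
  have m2 := main U1 V0 2 2 (1 / 4) (1 / 2) (tau j) 1 (fun p => rfl) (fun p => rfl)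
    (by norm_num) (by norm_num) (by norm_num) (by norm_num) (by norm_num) (by norm_num)
    (tau_pos j).le zero_le_one c2 c3
  have m3 := main U0 U1 (1 / 16) (1 / 4) 2 2 1 (tau k) (fun p => rfl) (fun p => rfl)
    (by norm_num) (by norm_num) (by norm_num) (by norm_num) (by norm_num) (by norm_num)
    zero_le_one (tau_pos k).le c1 c4
  have m4 := main U1 U1 2 2 2 2 (tau j) (tau k) (fun p => rfl) (fun p => rfl)
    (by norm_num) (by norm_num) (by norm_num) (by norm_num) (by norm_num) (by norm_num)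
    (tau_pos j).le (tau_pos k).le c2 c4
  have hfin : 4 * K ^ 2 * Real.exp (6 * c) * ((k : ℝ) + 1) ^ (25 / 32 : ℝ) *
      ((j : ℝ) + 1) ^ (-(1 / 16) : ℝ) =
      4 * (K ^ 2 * Real.exp (6 * c) * Real.exp (25 / 32 * Lk - 1 / 16 * Lj)) := by
    rw [Real.rpow_def_of_pos hk0, Real.rpow_def_of_pos hj0, ← hLjd, ← hLkd, Real.exp_sub,
      mul_comm Lk, show Lj * -(1 / 16) = -(1 / 16 * Lj) by ring, Real.exp_neg]
    field_simp
  rw [hfin]
  have mm := add_le_add (add_le_add (add_le_add m1 m2) m3) m4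
  refine le_trans ?_ (mm.trans (le_of_eq (by ring)))
  rw [mul_sum, mul_sum, mul_sum, mul_sum, ← sum_add_distrib, ← sum_add_distrib,
    ← sum_add_distrib]
  refine sum_le_sum fun S hS => ?_
  have hpos : (0 : ℝ) ≤ (∏ i, (pr (S i) : ℝ))⁻¹ := by positivity
  have r1 := rankin j ((S 0 ∪ S 1 ∪ S 2 ∪ S 3).filter (Sm j)) (fun p hp => (mem_filter.1 hp).2)
    U0 pU0
  have r2 := rankin k ((S 0 ∪ S 1).filter (fun p => 2 ^ (j + 1) ≤ p ∧ Sm k p))
    (fun p hp => (mem_filter.1 hp).2.2) V0 pV0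
  have s1 : ∏ p ∈ M1 j S, (gp p)⁻¹ ^ 2 = ∏ p ∈ M1 j S, U0 p :=
    prod_congr rfl fun p _ => gp_inv_sq p
  have s2 : ∏ p ∈ M2 k j S, (gp p)⁻¹ = ∏ p ∈ M2 k j S, V0 p :=
    prod_congr rfl fun p _ => gp_inv p
  have t1 : ∀ A : Finset ℕ, ∏ _p ∈ A, (2 : ℝ) = ∏ p ∈ A, U1 p := fun A =>
    prod_congr rfl fun p _ => (ite_self (2 : ℝ)).symm
  rw [t1] at r1 r2
  rw [s1, s2, M1, M2]
  set X0 := ∏ p ∈ (S 0 ∪ S 1 ∪ S 2 ∪ S 3).filter (Sm j), U0 p
  set X1 := ∏ p ∈ (S 0 ∪ S 1 ∪ S 2 ∪ S 3).filter (Sm j), U1 p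
  set Y0 := ∏ p ∈ (S 0 ∪ S 1).filter (fun p => 2 ^ (j + 1) ≤ p ∧ Sm k p), V0 p
  set Y1 := ∏ p ∈ (S 0 ∪ S 1).filter (fun p => 2 ^ (j + 1) ≤ p ∧ Sm k p), U1 p
  have q : (X0 + tau j * X1) * (Y0 + tau k * Y1) * (∏ i, (pr (S i) : ℝ))⁻¹ =
      1 * 1 * (X0 * Y0 / ∏ i, (pr (S i) : ℝ)) + tau j * 1 * (X1 * Y0 / ∏ i, (pr (S i) : ℝ)) +
      1 * tau k * (X0 * Y1 / ∏ i, (pr (S i) : ℝ)) +
      tau j * tau k * (X1 * Y1 / ∏ i, (pr (S i) : ℝ)) := by
    rw [div_eq_mul_inv, div_eq_mul_inv, div_eq_mul_inv, div_eq_mul_inv]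
    ring
  rw [← q, div_eq_mul_inv]
  refine mul_le_mul_of_nonneg_right (mul_le_mul r1 r2 ?_ ?_) hpos
  · exact prod_nonneg fun p _ => pV0 p
  · have := prod_nonneg fun p (_ : p ∈ (S 0 ∪ S 1 ∪ S 2 ∪ S 3).filter (Sm j)) => pU0 p
    have h2 := prod_nonneg fun p (_ : p ∈ (S 0 ∪ S 1 ∪ S 2 ∪ S 3).filter (Sm j)) => pU1 p
    exact add_nonneg this (mul_nonneg (tau_pos j).le h2)

end Pool.Agent.D0H25.QT
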